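import Mathlib
import Pool.Agent.R480.TC.Core

/-!
# Intervals without unit values are short
-/

set_option autoImplicit false

namespace Pool.Agent.R480.GP

open Finset Polynomial Pool.Agent.R480.TC

section

variable {k : Type*} [Field k]

lemma eval_deriv_double (f : k[X]) (a : k) (h : (X - C a) ^ 2 ∣ f) : (derivative f).eval a = 0 := by
  obtain ⟨g, rfl⟩ := h
  simp [derivative_mul, derivative_pow]

lemma eval_deriv_simple (g : k[X]) (a : k) : (derivative ((X - C a) * g)).eval a = g.eval a := by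
  simp [derivative_mul]

/-! ### the functional given by a sequence -/

/-- the functional `X^m ↦ β_m` -/
noncomputable def LL (β : ℕ → k) (M : ℕ) (f : k[X]) : k := ∑ m ∈ range (M + 1), f.coeff m * β m

lemma LL_add (β : ℕ → k) (M : ℕ) (f g : k[X]) : LL β M (f + g) = LL β M f + LL β M g := by
  unfold LL
  rw [← Finset.sum_add_distrib]
  refine Finset.sum_congr rfl fun m _ => ?_
  rw [coeff_add, add_mul]

lemma LL_C_mul (β : ℕ → k) (M : ℕ) (c : k) (f : k[X]) : LL β M (C c * f) = c * LL β M f := by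
  unfold LL
  rw [Finset.mul_sum]
  refine Finset.sum_congr rfl fun m _ => ?_
  rw [coeff_C_mul, mul_assoc]

lemma LL_sum (β : ℕ → k) (M : ℕ) {ι : Type*} (s : Finset ι) (f : ι → k[X]) :
    LL β M (∑ i ∈ s, f i) = ∑ i ∈ s, LL β M (f i) := by
  classical
  induction s using Finset.induction_on with
  | empty => simp [LL]
  | insert a s ha ih => rw [Finset.sum_insert ha, Finset.sum_insert ha, LL_add, ih]

lemma LL_X_pow (β : ℕ → k) (M n : ℕ) (hn : n ≤ M) : LL β M (X ^ n) = β n := by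
  unfold LL
  rw [Finset.sum_eq_single n]
  · rw [coeff_X_pow, if_pos rfl, one_mul]
  · intro m _ hm
    rw [coeff_X_pow, if_neg hm, zero_mul]
  · intro h
    exact absurd (mem_range.2 (by omega)) h

lemma LL_shift (β : ℕ → k) (M n : ℕ) (hn : n ≤ M) (c : k) :
    LL β M ((X + C c) ^ n) = ∑ m ∈ range (n + 1), (n.choose m : k) * c ^ (n - m) * β m := by
  unfold LL
  rw [← Finset.sum_subset (s₁ := range (n + 1)) (fun i hi => mem_range.2 (by
      rw [mem_range] at hi; omega)) (fun i _ hn => by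
        rw [mem_range, not_lt] at hn
        rw [coeff_X_add_C_pow, Nat.choose_eq_zero_of_lt (by omega), Nat.cast_zero, mul_zero, zero_mul])]
  refine Finset.sum_congr rfl fun m _ => ?_
  rw [coeff_X_add_C_pow]
  ring

lemma LL_zero (β : ℕ → k) (M A : ℕ) (f : k[X]) (hf : X ^ A ∣ f) (hβ : ∀ m, A ≤ m → m ≤ M → β m = 0) :
    LL β M f = 0 := by
  unfold LL
  refine Finset.sum_eq_zero fun m hm => ?_
  rw [mem_range] at hm
  rcases Nat.lt_or_ge m A with h | h
  · rw [(X_pow_dvd_iff.1 hf) m h, zero_mul]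
  · rw [hβ m h (by omega), mul_zero]

/-- the relation for all polynomials of degree at most `M` -/
theorem LL_rel (N M : ℕ) (χ : ℕ → k) (β : ℕ → k)
    (hrec : ∀ n, 1 ≤ n → n ≤ M → ∑ m ∈ range n, (n.choose m : k) * (N : k) ^ (n - m) * β m =
      n * ∑ a ∈ Icc 1 N, χ a * (a : k) ^ (n - 1)) (f : k[X]) (hf : f.natDegree ≤ M) :
    LL β M (f.comp (X + C (N : k))) - LL β M f = ∑ a ∈ Icc 1 N, χ a * (derivative f).eval ((a : ℕ) : k) := by
  have h1 : f = ∑ n ∈ range (M + 1), C (f.coeff n) * X ^ n := by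
    conv_lhs => rw [f.as_sum_range_C_mul_X_pow' (n := M + 1) (by omega)]
  have hmon : ∀ n, n ≤ M → LL β M ((X + C (N : k)) ^ n) - LL β M (X ^ n) =
      ∑ a ∈ Icc 1 N, χ a * (derivative (X ^ n : k[X])).eval ((a : ℕ) : k) := by
    intro n hn
    rw [LL_shift β M n hn, LL_X_pow β M n hn, Finset.sum_range_succ, Nat.choose_self, Nat.sub_self,
      pow_zero, Nat.cast_one, one_mul, one_mul, add_sub_cancel_right]
    rcases Nat.eq_zero_or_pos n with h0 | h0
    · subst h0
      simp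
    · rw [hrec n h0 hn, Finset.mul_sum]
      refine Finset.sum_congr rfl fun a _ => ?_
      rw [derivative_X_pow]
      simp
      ring
  have e1 : f.comp (X + C (N : k)) = ∑ n ∈ range (M + 1), C (f.coeff n) * (X + C (N : k)) ^ n := by
    conv_lhs => rw [h1]
    rw [Polynomial.sum_comp]
    refine Finset.sum_congr rfl fun n _ => ?_
    simp
  have e2 : ∀ a : ℕ, (derivative f).eval ((a : ℕ) : k) =
      ∑ n ∈ range (M + 1), f.coeff n * (derivative (X ^ n : k[X])).eval ((a : ℕ) : k) := by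
    intro a
    conv_lhs => rw [h1]
    rw [derivative_sum, eval_finsetSum]
    refine Finset.sum_congr rfl fun n _ => ?_
    rw [derivative_C_mul, eval_mul, eval_C]
  have e3 : LL β M f = ∑ n ∈ range (M + 1), f.coeff n * LL β M (X ^ n) := by
    conv_lhs => rw [h1]
    rw [LL_sum]
    refine Finset.sum_congr rfl fun n _ => ?_
    rw [LL_C_mul]
  rw [e1, LL_sum, e3, ← Finset.sum_sub_distrib]
  simp only [e2, Finset.mul_sum]
  rw [Finset.sum_comm]
  refine Finset.sum_congr rfl fun n hn => ?_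
  rw [mem_range] at hn
  rw [LL_C_mul, ← mul_sub, hmon n (by omega), Finset.mul_sum]
  refine Finset.sum_congr rfl fun a _ => ?_
  ring

variable {p : ℕ} [Fact p.Prime] [CharP k p]

variable (p) in
/-- no gap of this length -/
theorem one_gap (N M A : ℕ) (hN : 2 ≤ N) (hNp : N < p) (χ : ℕ → k) (hχ1 : χ 1 ≠ 0)
    (hχ : ∀ a, ¬ a.Coprime N → χ a = 0) (β : ℕ → k)
    (hrec : ∀ n, 1 ≤ n → n ≤ M → ∑ m ∈ range n, (n.choose m : k) * (N : k) ^ (n - m) * β m =
      n * ∑ a ∈ Icc 1 N, χ a * (a : k) ^ (n - 1)) (hM : 2 * A + 2 * N.totient ≤ M + 1)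
    (hβ : ∀ m, A ≤ m → m ≤ M → β m = 0) : False := by
  classical
  set Φ : Finset ℕ := (Icc 1 N).filter (fun a => a.Coprime N) with hΦ
  have hΦc : Φ.card = N.totient := by
    rw [Nat.totient_eq_card_coprime, hΦ]
    congr 1
    ext a
    rw [mem_filter, mem_filter, mem_Icc, mem_range]
    constructor
    · rintro ⟨⟨h1, h2⟩, h3⟩
      refine ⟨lt_of_le_of_ne h2 ?_, h3.symm⟩
      rintro rfl
      rw [Nat.coprime_self] at h3
      omega
    · rintro ⟨h1, h2⟩
      refine ⟨⟨Nat.one_le_iff_ne_zero.2 ?_, h1.le⟩, h2.symm⟩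
      rintro rfl
      rw [Nat.coprime_zero_right] at h2
      omega
  have h1Φ : 1 ∈ Φ := by
    rw [hΦ, mem_filter, mem_Icc]
    exact ⟨⟨le_rfl, by omega⟩, Nat.coprime_one_left N⟩
  set Φ' : Finset ℕ := Φ.erase 1 with hΦ'
  have hΦ'c : Φ'.card + 1 = N.totient := by
    rw [hΦ', Finset.card_erase_of_mem h1Φ, hΦc]
    have : 0 < Φ.card := Finset.card_pos.2 ⟨1, h1Φ⟩
    omega
  set R : k[X] := (X * (X - C (N : k))) ^ A * (∏ a ∈ Φ', (X - C ((a : ℕ) : k))) ^ 2 with hR
  set f : k[X] := (X - C (((1 : ℕ) : k))) * R with hf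
  have hdeg : f.natDegree ≤ M := by
    have h1 : (X * (X - C (N : k)) : k[X]).natDegree ≤ 2 :=
      (natDegree_mul_le).trans (by rw [natDegree_X, natDegree_X_sub_C])
    have h2 : (∏ a ∈ Φ', (X - C ((a : ℕ) : k))).natDegree ≤ Φ'.card := by
      refine (natDegree_prod_le _ _).trans ?_
      refine (Finset.sum_le_card_nsmul _ _ 1 (fun a _ => natDegree_X_sub_C_le _)).trans ?_
      rw [smul_eq_mul, mul_one]
    have h3 : R.natDegree ≤ A * 2 + 2 * Φ'.card := by
      refine (natDegree_mul_le).trans (Nat.add_le_add ?_ ?_)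
      · exact (natDegree_pow_le).trans (Nat.mul_le_mul_left _ h1)
      · exact (natDegree_pow_le).trans (Nat.mul_le_mul_left _ h2)
    have h4 : f.natDegree ≤ 1 + (A * 2 + 2 * Φ'.card) := by
      refine (natDegree_mul_le).trans (Nat.add_le_add ?_ h3)
      rw [natDegree_X_sub_C]
    omega
  have hcop : ∀ a ∈ Φ', ((1 : ℕ) : k) ≠ ((a : ℕ) : k) := by
    intro a ha h
    rw [hΦ', mem_erase, hΦ, mem_filter, mem_Icc] at ha
    have := cast_inj' (p := p) (show 1 < p by omega) (show a < p by omega) h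
    exact ha.1 this.symm
  have hrel := LL_rel N M χ β hrec f hdeg
  have z1 : LL β M f = 0 := by
    apply LL_zero β M A f _ hβ
    rw [hf, hR, mul_pow]
    exact Dvd.intro_left ((X - C (((1 : ℕ) : k))) * ((X - C (N : k)) ^ A *
      (∏ a ∈ Φ', (X - C ((a : ℕ) : k))) ^ 2)) (by ring)
  have z2 : LL β M (f.comp (X + C (N : k))) = 0 := by
    apply LL_zero β M A _ _ hβ
    have h1 : (X - C (N : k)) ^ A ∣ f := by
      rw [hf, hR, mul_pow]
      exact Dvd.intro_left ((X - C (((1 : ℕ) : k))) * (X ^ A *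
        (∏ a ∈ Φ', (X - C ((a : ℕ) : k))) ^ 2)) (by ring)
    obtain ⟨g, hg⟩ := h1
    rw [hg, mul_comp, pow_comp, sub_comp, X_comp, C_comp, add_sub_cancel_right]
    exact dvd_mul_right _ _
  rw [z1, z2, sub_zero] at hrel
  have hpt : ∀ a ∈ Icc 1 N, a ≠ 1 → χ a * (derivative f).eval ((a : ℕ) : k) = 0 := by
    intro a ha ha1
    by_cases hc : a.Coprime N
    · have haΦ : a ∈ Φ' := by
        rw [hΦ', mem_erase, hΦ, mem_filter]
        exact ⟨ha1, ha, hc⟩
      rw [eval_deriv_double f, mul_zero]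
      have h1 : (X - C ((a : ℕ) : k)) ∣ ∏ a ∈ Φ', (X - C ((a : ℕ) : k)) := Finset.dvd_prod_of_mem _ haΦ
      rw [hf, hR]
      exact ((pow_dvd_pow_of_dvd h1 2).mul_left _).mul_left _
    · rw [hχ a hc, zero_mul]
  rw [Finset.sum_eq_single 1 hpt (fun h => absurd (mem_Icc.2 ⟨le_rfl, by omega⟩) h), hf,
    eval_deriv_simple] at hrel
  have hR1 : R.eval (((1 : ℕ) : k)) ≠ 0 := by
    rw [hR]
    simp only [eval_mul, eval_pow, eval_X, eval_sub, eval_C, eval_prod]
    have h10 : ((1 : ℕ) : k) ≠ 0 := by simp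
    have h1N : ((1 : ℕ) : k) ≠ ((N : ℕ) : k) := by
      intro h
      have := cast_inj' (p := p) (show 1 < p by omega) hNp h
      omega
    refine mul_ne_zero (pow_ne_zero _ (mul_ne_zero h10 (sub_ne_zero.2 h1N))) (pow_ne_zero _ ?_)
    exact Finset.prod_ne_zero_iff.2 fun a ha => sub_ne_zero.2 (hcop a ha)
  exact mul_ne_zero hχ1 hR1 hrel.symm

end

end Pool.Agent.R480.GP
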