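import Mathlib
import Pool.Agent.R480.GP.Gap
import Pool.Agent.R480.TC.Res

/-!
# Intervals without unit values are short: the levels `N₁ ℓ^K`
-/

set_option autoImplicit false

namespace Pool.Agent.R480.GP

open Finset Polynomial Pool.Agent.R480.TC Pool.Agent.Y18.GX

section

variable {k : Type*} [Field k] {p : ℕ} [Fact p.Prime] [CharP k p]

omit [CharP k p] in
lemma Lam_expand (w : ℕ → k) (x : ℕ → ℕ) (L M : ℕ) (g : k[X]) (hg : g.natDegree ≤ M) :
    Lam w x L g = ∑ m ∈ range (M + 1), g.coeff m * Lam w x L (X ^ m) := by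
  conv_lhs => rw [g.as_sum_range_C_mul_X_pow' (n := M + 1) (by omega)]
  rw [Lam_sum]
  refine Finset.sum_congr rfl fun m _ => ?_
  rw [Lam_C_mul]

omit [CharP k p] in
lemma Lam_expand' (w : ℕ → k) (x : ℕ → ℕ) (L M : ℕ) (g : k[X]) (hg : g.natDegree ≤ M) :
    Lam w x L (g.comp (-X)) = ∑ m ∈ range (M + 1), g.coeff m * ((-1) ^ m * Lam w x L (X ^ m)) := by
  conv_lhs => rw [g.as_sum_range_C_mul_X_pow' (n := M + 1) (by omega)]
  rw [Polynomial.sum_comp, Lam_sum]
  refine Finset.sum_congr rfl fun m _ => ?_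
  have : (C (g.coeff m) * X ^ m : k[X]).comp (-X) = C (g.coeff m * (-1) ^ m) * X ^ m := by
    rw [mul_comp, C_comp, pow_comp, X_comp, neg_pow, map_mul, map_pow, map_neg, map_one]
    ring
  rw [this, Lam_C_mul]
  ring

omit [CharP k p] in
lemma Lam_part_zero (w : ℕ → k) (x : ℕ → ℕ) (L M A e : ℕ) (g : k[X]) (hg : g.natDegree ≤ M) (hA : X ^ A ∣ g)
    (hS : ∀ m, A ≤ m → m ≤ M → Even (m + e) → Lam w x L (X ^ m : k[X]) = 0) :
    Lam w x L g + (-1) ^ e * Lam w x L (g.comp (-X)) = 0 := by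
  rw [Lam_expand w x L M g hg, Lam_expand' w x L M g hg, Finset.mul_sum, ← Finset.sum_add_distrib]
  refine Finset.sum_eq_zero fun m hm => ?_
  rw [mem_range] at hm
  rcases Nat.lt_or_ge m A with h | h
  · rw [(X_pow_dvd_iff.1 hA) m h]
    ring
  · by_cases hpar : Even (m + e)
    · rw [hS m h (by omega) hpar]
      ring
    · have hodd : Odd (m + e) := Nat.not_even_iff_odd.1 hpar
      have h6 : (-1 : k) ^ e * (-1) ^ m = -1 := by
        rw [← pow_add, add_comm e m]
        exact hodd.neg_one_pow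
      linear_combination (g.coeff m * Lam w x L (X ^ m : k[X])) * h6

variable (p) in
theorem gap (w : ℕ → k) (x : ℕ → ℕ) (L N₁ H : ℕ) (ξ : k) (hw : ∀ t, w (t + N₁) = ξ * w t)
    (hwL : ∀ t, w (t + L) = w t) (hsum : ∑ t ∈ range L, w t = 0) (hx : ∀ t, x (t + N₁) = x t + H)
    (hxL : ∀ t, ((x (t + L) : ℕ) : k) = (x t : k) + 1) (e : ℕ) (A M : ℕ) (hM : M < p)
    (U : Finset ℕ) (hU : U ⊆ range N₁) (hUw : ∀ t ∈ range N₁, t ∉ U → w t = 0) (h0U : 0 ∈ U)
    (hw0 : w 0 ≠ 0) (hξ : ξ ≠ 0)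
    (hd1 : ((x 0 : ℕ) : k) ≠ 0) (hd2 : ((x 0 : ℕ) : k) ≠ (H : ℕ)) (hd3 : ((x 0 : ℕ) : k) ≠ 2 * (H : ℕ))
    (hd4 : ∀ t ∈ U, t ≠ 0 → ((x t : ℕ) : k) ≠ (x 0 : ℕ))
    (hd5 : ∀ t ∈ U, ((x t : ℕ) : k) + (H : ℕ) ≠ (x 0 : ℕ))
    (hd6 : ∀ t ∈ U, ((H : ℕ) : k) - (x t : ℕ) ≠ (x 0 : ℕ))
    (hd7 : ∀ t ∈ U, 2 * ((H : ℕ) : k) - (x t : ℕ) ≠ (x 0 : ℕ))
    (hAM : 3 * A + 8 * U.card ≤ M + 1)
    (hS : ∀ m, A ≤ m → m ≤ M → Even (m + e) → Lam w x L (X ^ m : k[X]) = 0) : False := by
  classical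
  set h : k := ((H : ℕ) : k) with hh
  set X' : ℕ → k := fun t => ((x t : ℕ) : k) with hX'
  set Z : Finset k := (U.erase 0).image X' ∪ (U.image (fun t => X' t + h) ∪
    (U.image (fun t => h - X' t) ∪ U.image (fun t => 2 * h - X' t))) with hZ
  have hZc : Z.card + 1 ≤ 4 * U.card := by
    have h1 : ((U.erase 0).image X').card + 1 ≤ U.card := by
      have h2 := Finset.card_image_le (s := U.erase 0) (f := X')
      rw [Finset.card_erase_of_mem h0U] at h2
      have : 0 < U.card := Finset.card_pos.2 ⟨0, h0U⟩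
      omega
    have h2 := Finset.card_image_le (s := U) (f := fun t => X' t + h)
    have h3 := Finset.card_image_le (s := U) (f := fun t => h - X' t)
    have h4 := Finset.card_image_le (s := U) (f := fun t => 2 * h - X' t)
    have h5 := Finset.card_union_le (U.image (fun t => h - X' t)) (U.image (fun t => 2 * h - X' t))
    have h6 := Finset.card_union_le (U.image (fun t => X' t + h)) (U.image (fun t => h - X' t) ∪
      U.image (fun t => 2 * h - X' t))
    have h7 := Finset.card_union_le ((U.erase 0).image X') (U.image (fun t => X' t + h) ∪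
      (U.image (fun t => h - X' t) ∪ U.image (fun t => 2 * h - X' t)))
    rw [← hZ] at h7
    omega
  have hx0Z : X' 0 ∉ Z := by
    intro hmem
    rw [hZ, mem_union, mem_union, mem_union, mem_image, mem_image, mem_image, mem_image] at hmem
    rcases hmem with ⟨t, ht, h1⟩ | ⟨t, ht, h1⟩ | ⟨t, ht, h1⟩ | ⟨t, ht, h1⟩
    · rw [mem_erase] at ht
      exact hd4 t ht.2 ht.1 h1
    · exact hd5 t ht h1
    · exact hd6 t ht h1
    · exact hd7 t ht h1
  set R : k[X] := (X * (X - C h) * (X - C (2 * h))) ^ A * (∏ z ∈ Z, (X - C z)) ^ 2 with hR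
  set f : k[X] := (X - C (X' 0)) * R with hf
  have hdeg : f.natDegree ≤ M := by
    have h1 : (X * (X - C h) * (X - C (2 * h)) : k[X]).natDegree ≤ 3 := by
      refine (natDegree_mul_le).trans ?_
      refine (Nat.add_le_add (natDegree_mul_le) le_rfl).trans ?_
      rw [natDegree_X, natDegree_X_sub_C, natDegree_X_sub_C]
    have h2 : (∏ z ∈ Z, (X - C z)).natDegree ≤ Z.card := by
      refine (natDegree_prod_le _ _).trans ?_
      refine (Finset.sum_le_card_nsmul _ _ 1 (fun a _ => natDegree_X_sub_C_le _)).trans ?_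
      rw [smul_eq_mul, mul_one]
    have h3 : R.natDegree ≤ A * 3 + 2 * Z.card := by
      refine (natDegree_mul_le).trans (Nat.add_le_add ?_ ?_)
      · exact (natDegree_pow_le).trans (Nat.mul_le_mul_left _ h1)
      · exact (natDegree_pow_le).trans (Nat.mul_le_mul_left _ h2)
    have h4 : f.natDegree ≤ 1 + (A * 3 + 2 * Z.card) := by
      refine (natDegree_mul_le).trans (Nat.add_le_add ?_ h3)
      rw [natDegree_X_sub_C]
    omega
  have hshift : ∀ c : k, (f.comp (X + C c)).natDegree ≤ M := by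
    intro c
    rw [natDegree_shift]
    exact hdeg
  -- divisibility
  have v0 : X ^ A ∣ f := by
    rw [hf, hR, mul_pow, mul_pow]
    exact Dvd.intro_left ((X - C (X' 0)) * ((X - C h) ^ A * (X - C (2 * h)) ^ A *
      (∏ z ∈ Z, (X - C z)) ^ 2)) (by ring)
  have v1 : X ^ A ∣ f.comp (X + C h) := by
    have h1 : (X - C h) ^ A ∣ f := by
      rw [hf, hR, mul_pow, mul_pow]
      exact Dvd.intro_left ((X - C (X' 0)) * (X ^ A * (X - C (2 * h)) ^ A *
        (∏ z ∈ Z, (X - C z)) ^ 2)) (by ring)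
    obtain ⟨g, hg⟩ := h1
    rw [hg, mul_comp, pow_comp, sub_comp, X_comp, C_comp, add_sub_cancel_right]
    exact dvd_mul_right _ _
  have v2 : X ^ A ∣ f.comp (X + C (2 * h)) := by
    have h1 : (X - C (2 * h)) ^ A ∣ f := by
      rw [hf, hR, mul_pow, mul_pow]
      exact Dvd.intro_left ((X - C (X' 0)) * (X ^ A * (X - C h) ^ A *
        (∏ z ∈ Z, (X - C z)) ^ 2)) (by ring)
    obtain ⟨g, hg⟩ := h1
    rw [hg, mul_comp, pow_comp, sub_comp, X_comp, C_comp, add_sub_cancel_right]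
    exact dvd_mul_right _ _
  have z0 := Lam_part_zero w x L M A e f hdeg v0 hS
  have z1 := Lam_part_zero w x L M A e _ (hshift h) v1 hS
  have z2 := Lam_part_zero w x L M A e _ (hshift (2 * h)) v2 hS
  have r1 := rel2 p w x L N₁ H ξ hw hwL hsum hx hxL f (by omega)
  have hfl : (f.comp (C (2 * h) - X)).natDegree ≤ M := by
    have h1 : (C (2 * h) - X : k[X]).natDegree ≤ 1 := by
      refine (natDegree_sub_le _ _).trans ?_
      rw [natDegree_C, natDegree_X]
      simp
    calc (f.comp (C (2 * h) - X)).natDegree ≤ f.natDegree * (C (2 * h) - X : k[X]).natDegree :=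
          natDegree_comp_le
      _ ≤ f.natDegree * 1 := Nat.mul_le_mul_left _ h1
      _ ≤ M := by omega
  have r2 := rel2 p w x L N₁ H ξ hw hwL hsum hx hxL (f.comp (C (2 * h) - X)) (by omega)
  rw [← hh] at r1 r2
  have c1 : (f.comp (C (2 * h) - X)).comp (X + C h) = (f.comp (X + C h)).comp (-X) := by
    rw [comp_assoc, comp_assoc]
    congr 1
    simp only [sub_comp, add_comp, C_comp, X_comp]
    have : (C (2 * h) : k[X]) = 2 * C h := by
      rw [map_mul]
      rfl
    rw [this]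
    ring
  have c2 : (f.comp (C (2 * h) - X)).comp (X + C (2 * h)) = f.comp (-X) := by
    rw [comp_assoc]
    congr 1
    simp only [sub_comp, C_comp, X_comp]
    ring
  have c3 : f.comp (C (2 * h) - X) = (f.comp (X + C (2 * h))).comp (-X) := by
    rw [comp_assoc]
    congr 1
    simp only [add_comp, C_comp, X_comp]
    ring
  rw [c1, c2] at r2
  have c4 : Lam w x L (f.comp (C (2 * h) - X)) = Lam w x L ((f.comp (X + C (2 * h))).comp (-X)) := by
    rw [← c3]
  rw [c4] at r2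
  have d1 : ∀ y : k, (derivative (f.comp (C (2 * h) - X))).eval y = -(derivative f).eval (2 * h - y) := by
    intro y
    rw [derivative_comp]
    simp only [derivative_sub, derivative_X, derivative_C, eval_mul, eval_comp, eval_sub, eval_X,
      eval_C, zero_sub, eval_neg, eval_one]
    ring
  simp only [d1] at r2
  -- the derivative of `f` at the points
  have hZ0 : ∀ z ∈ Z, (derivative f).eval z = 0 := by
    intro z hz
    apply eval_deriv_double
    have h1 : (X - C z) ∣ ∏ z ∈ Z, (X - C z) := Finset.dvd_prod_of_mem _ hz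
    rw [hf, hR]
    exact ((pow_dvd_pow_of_dvd h1 2).mul_left _).mul_left _
  have hf0 : (derivative f).eval (X' 0) ≠ 0 := by
    rw [hf, eval_deriv_simple, hR]
    simp only [eval_mul, eval_pow, eval_X, eval_sub, eval_C, eval_prod]
    refine mul_ne_zero (pow_ne_zero _ (mul_ne_zero (mul_ne_zero hd1 (sub_ne_zero.2 hd2))
      (sub_ne_zero.2 hd3))) (pow_ne_zero _ ?_)
    exact Finset.prod_ne_zero_iff.2 fun a ha => sub_ne_zero.2 (fun h => hx0Z (h ▸ ha))
  have mem1 : ∀ t ∈ U, t ≠ 0 → X' t ∈ Z := fun t ht h0 => by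
    rw [hZ, mem_union, mem_image]
    exact Or.inl ⟨t, mem_erase.2 ⟨h0, ht⟩, rfl⟩
  have mem2 : ∀ t ∈ U, X' t + h ∈ Z := fun t ht => by
    rw [hZ, mem_union, mem_union, mem_image, mem_image]
    exact Or.inr (Or.inl ⟨t, ht, rfl⟩)
  have mem3 : ∀ t ∈ U, h - X' t ∈ Z := fun t ht => by
    rw [hZ, mem_union, mem_union, mem_union, mem_image, mem_image, mem_image]
    exact Or.inr (Or.inr (Or.inl ⟨t, ht, rfl⟩))
  have mem4 : ∀ t ∈ U, 2 * h - X' t ∈ Z := fun t ht => by
    rw [hZ, mem_union, mem_union, mem_union, mem_image, mem_image, mem_image, mem_image]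
    exact Or.inr (Or.inr (Or.inr ⟨t, ht, rfl⟩))
  have s1 : ∑ t ∈ range N₁, w t * (ξ * (derivative f).eval ((x t : ℕ) : k) -
        (derivative f).eval (((x t : ℕ) : k) + h)) = w 0 * (ξ * (derivative f).eval (X' 0)) := by
    rw [Finset.sum_eq_single 0]
    · have h1 := hZ0 _ (mem2 0 h0U)
      simp only [hX'] at h1
      rw [h1, sub_zero]
    · intro t ht ht0
      by_cases htU : t ∈ U
      · have h1 := hZ0 _ (mem1 t htU ht0)
        have h2 := hZ0 _ (mem2 t htU)
        simp only [hX'] at h1 h2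
        rw [h1, h2]
        ring
      · rw [hUw t ht htU, zero_mul]
    · intro h1
      exact absurd (hU h0U) h1
  have s2 : ∑ t ∈ range N₁, w t * (ξ * -(derivative f).eval (2 * h - ((x t : ℕ) : k)) -
        -(derivative f).eval (2 * h - (((x t : ℕ) : k) + h))) = 0 := by
    refine Finset.sum_eq_zero fun t ht => ?_
    by_cases htU : t ∈ U
    · have h1 := hZ0 _ (mem3 t htU)
      have h2 := hZ0 _ (mem4 t htU)
      simp only [hX'] at h1 h2
      have h3 : 2 * h - (((x t : ℕ) : k) + h) = h - ((x t : ℕ) : k) := by ring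
      rw [h3, h1, h2]
      ring
    · rw [hUw t ht htU, zero_mul]
  rw [s1] at r1
  rw [s2] at r2
  have hfin : w 0 * (ξ * (derivative f).eval (X' 0)) = 0 := by
    linear_combination (ξ ^ 2 + 1) * z1 - ξ * z2 - ξ * z0 - r1 - (-1) ^ e * r2
  exact mul_ne_zero hw0 (mul_ne_zero hξ hf0) hfin

end

end Pool.Agent.R480.GP
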