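import Mathlib
import Pool.Agent.R480.GP.Two

/-!
# The gaps for the sums of a character in characteristic `p`
-/

set_option autoImplicit false

namespace Pool.Agent.R480.GP

open Finset Polynomial Pool.Agent.R480.TC Pool.Agent.Y18.GX

section

variable {k : Type*} [Field k] {p : ℕ} [Fact p.Prime] [CharP k p]

theorem res_gap {ℓ n K N₁ g u : ℕ} (χ₁ : MulChar (ZMod N₁) k) (χ₂ : MulChar (ZMod (ℓ ^ K)) k)
    (hp2 : p ≠ 2) (hA : Adm ℓ (p ^ g)) (hn1 : 1 ≤ n) (hn : 2 * n ≤ K) (h3 : 3 ≤ ℓ ^ n)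
    (hq : p ^ g - 1 = ℓ ^ n * u) (hu : u.Coprime ℓ) (hχ₁ : ∀ a, χ₁ a ^ p ^ g = χ₁ a)
    (hprim : χ₂ ((1 + ℓ ^ (K - 1) : ℕ) : ZMod (ℓ ^ K)) ≠ 1)
    (hN₁ : N₁.Coprime ℓ) (hN0 : N₁ ≠ 0) (hNk : (N₁ : k) ≠ 0) (hℓk : (ℓ : k) ≠ 0)
    (h2N : 2 * N₁ + 3 ≤ p) (hK : (2 * N₁ + 3) * N₁ * ℓ ^ (2 * n) ≤ ℓ ^ K)
    (e A M : ℕ) (hA1 : 1 ≤ A) (hM : M < p) (hpar : χ₁ (-1) * χ₂ (-1) = (-1) ^ e)
    (hAM : 3 * A + 8 * N₁.totient ≤ M + 1)
    (hS : ∀ m, A ≤ m → m ≤ M → Even (m + e) →
      ∑ a ∈ range (N₁ * ℓ ^ K), χ₁ (a : ZMod N₁) * χ₂ (a : ZMod (ℓ ^ K)) *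
        Polynomial.aeval ((a : k) / (N₁ * ℓ ^ K : ℕ)) (FF m) = 0) : False := by
  classical
  have hpp : p.Prime := Fact.out
  have hℓ := hA.prime
  set D := ℓ ^ (K - n) with hD
  set L := N₁ * ℓ ^ n with hL
  set N := N₁ * ℓ ^ K with hN
  have hNDL : N = D * L := by
    rw [hN, hD, hL, mul_left_comm, ← pow_add, Nat.sub_add_cancel (by omega)]
  have hDk : ((D : ℕ) : k) ≠ 0 := by
    rw [hD, Nat.cast_pow]
    exact pow_ne_zero _ hℓk
  have hLk : ((L : ℕ) : k) ≠ 0 := by
    rw [hL, Nat.cast_mul, Nat.cast_pow]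
    exact mul_ne_zero hNk (pow_ne_zero _ hℓk)
  have hNkk : ((N : ℕ) : k) ≠ 0 := by
    rw [hNDL, Nat.cast_mul]
    exact mul_ne_zero hDk hLk
  have hpN : ¬ p ∣ N := fun h => hNkk ((CharP.cast_eq_zero_iff k p N).2 h)
  have hℓn0 : 0 < ℓ ^ n := by omega
  have hN1 : 1 ≤ N₁ := Nat.one_le_iff_ne_zero.2 hN0
  obtain ⟨i, hi, hbad⟩ := exists_class (k := k) p N₁ ℓ n D hp2 hN0 hNk hℓk h2N
  set b := 1 + i * (N₁ * ℓ ^ n) with hb
  have hbD : b < D := by
    have h1 : (2 * N₁ + 3) * N₁ * ℓ ^ n ≤ D := by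
      have h2 : (2 * N₁ + 3) * N₁ * ℓ ^ n * ℓ ^ n ≤ D * ℓ ^ n := by
        rw [hD, ← pow_add, Nat.sub_add_cancel (by omega)]
        have h2n : ℓ ^ (2 * n) = ℓ ^ n * ℓ ^ n := by rw [two_mul, pow_add]
        rw [h2n, ← mul_assoc] at hK
        exact hK
      exact Nat.le_of_mul_le_mul_right h2 hℓn0
    have h3 : i * (N₁ * ℓ ^ n) ≤ (2 * N₁ + 2) * (N₁ * ℓ ^ n) := Nat.mul_le_mul_right _ hi
    have h4 : 1 < N₁ * ℓ ^ n := by nlinarith
    have h5 : (2 * N₁ + 3) * N₁ * ℓ ^ n = (2 * N₁ + 2) * (N₁ * ℓ ^ n) + N₁ * ℓ ^ n := by ring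
    omega
  have hb1 : b % ℓ ^ n = 1 := by
    have h4 : b = 1 + ℓ ^ n * (i * N₁) := by rw [hb]; ring
    rw [h4, Nat.add_mul_mod_self_left, Nat.mod_eq_of_lt (by omega)]
  have hbN : ((b : ℕ) : ZMod N₁) = 1 := by
    rw [hb]
    push_cast
    simp
  set ξ := χ₂ ((1 + D : ℕ) : ZMod (ℓ ^ K)) with hξ
  have hξ1 : ξ ^ ℓ ^ n = 1 := psi_M_pow χ₂ hn
  have hξL : ξ ^ L = 1 := by rw [hL, mul_comm, pow_mul, hξ1, one_pow]
  have hξ0 : ξ ≠ 0 := by
    intro h
    rw [h, zero_pow hℓn0.ne'] at hξ1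
    exact zero_ne_one hξ1
  have hξ2 : ξ ^ ℓ ^ (n - 1) ≠ 1 := by
    rw [psi_M_pow' χ₂ hn hn1]
    exact hprim
  have hξN : ξ ^ N₁ ≠ 1 := by
    intro h
    apply hξ2
    have h4 : orderOf ξ ∣ 1 := by
      have h5 : Nat.Coprime N₁ (ℓ ^ n) := hN₁.pow_right n
      rw [← h5]
      exact Nat.dvd_gcd (orderOf_dvd_of_pow_eq_one h) (orderOf_dvd_of_pow_eq_one hξ1)
    have h6 : ξ = 1 := orderOf_eq_one_iff.1 (Nat.dvd_one.1 h4)
    rw [h6, one_pow]
  set w : ℕ → k := fun t => χ₁ ((b + D * t : ℕ) : ZMod N₁) * ξ ^ t with hw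
  set x : ℕ → ℕ := fun t => (b + D * t) * N ^ (p - 2) with hx
  have hxk : ∀ t, ((x t : ℕ) : k) = ((b + D * t : ℕ) : k) / (N : ℕ) := by
    intro t
    simp only [hx]
    rw [Nat.cast_mul, Nat.cast_pow, eq_div_iff hNkk, mul_assoc, ← pow_succ]
    have h2 := hpp.two_le
    have : p - 2 + 1 = p - 1 := by omega
    rw [this, Pool.Agent.R480.PT.pow_card hpp hpN, mul_one]
  set H : ℕ := D * N₁ * N ^ (p - 2) with hH
  have hHk : ((H : ℕ) : k) = ((D * N₁ : ℕ) : k) / (N : ℕ) := by
    rw [hH, Nat.cast_mul, Nat.cast_pow, eq_div_iff hNkk, mul_assoc, ← pow_succ]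
    have h2 := hpp.two_le
    have : p - 2 + 1 = p - 1 := by omega
    rw [this, Pool.Agent.R480.PT.pow_card hpp hpN, mul_one]
  set U : Finset ℕ := (range N₁).filter (fun t => (b + D * t).Coprime N₁) with hU
  have hUc : U.card ≤ N₁.totient := by
    rw [Nat.totient_eq_card_coprime]
    refine Finset.card_le_card_of_injOn (fun t => (b + D * t) % N₁) ?_ ?_
    · intro t ht
      rw [mem_coe, hU, mem_filter] at ht
      rw [mem_coe, mem_filter, mem_range]
      refine ⟨Nat.mod_lt _ (by omega), ?_⟩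
      have h4 := ht.2
      rw [Nat.Coprime, Nat.gcd_comm, Nat.gcd_rec] at h4
      rw [Nat.Coprime, Nat.gcd_comm]
      exact h4
    · intro t ht s hs hts
      rw [mem_coe, hU, mem_filter, mem_range] at ht hs
      simp only at hts
      have h4 : (b + D * t) ≡ (b + D * s) [MOD N₁] := hts
      have h5 : D * t ≡ D * s [MOD N₁] := Nat.ModEq.add_left_cancel' b h4
      have h6 : N₁.gcd D = 1 := by
        rw [hD]
        exact (hN₁.pow_right _)
      have h7 : t ≡ s [MOD N₁] := Nat.ModEq.cancel_left_of_coprime h6 h5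
      have h8 := h7
      rw [Nat.ModEq, Nat.mod_eq_of_lt ht.1, Nat.mod_eq_of_lt hs.1] at h8
      exact h8
  have hsmall : ∀ t, 0 < t → t < p → ((t : ℕ) : k) ≠ 0 := by
    intro t h0 h1 h2
    have := Nat.le_of_dvd h0 ((CharP.cast_eq_zero_iff k p t).1 h2)
    omega
  have hdiv : ∀ {y z : k}, y / ((N : ℕ) : k) = z / ((N : ℕ) : k) → y = z := by
    intro y z h
    exact (div_left_inj' hNkk).1 h
  refine gap p w x L N₁ H (ξ ^ N₁)
    (by
      intro t
      simp only [hw]
      have h4 : (((b + D * (t + N₁) : ℕ)) : ZMod N₁) = ((b + D * t : ℕ) : ZMod N₁) := by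
        push_cast
        simp
      rw [h4, pow_add]
      ring)
    (by
      intro t
      simp only [hw]
      have h4 : (((b + D * (t + L) : ℕ)) : ZMod N₁) = ((b + D * t : ℕ) : ZMod N₁) := by
        rw [hL]
        push_cast
        simp
      rw [h4, pow_add, hξL, mul_one])
    (E_zero χ₁ ξ (Dvd.intro _ rfl) hξL hξN b)
    (by
      intro t
      simp only [hx, hH]
      ring)
    (by
      intro t
      rw [hxk, hxk, div_add_one hNkk]
      congr 1
      rw [hNDL]
      push_cast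
      ring)
    e A M hM U (Finset.filter_subset _ _)
    (by
      intro t ht htU
      simp only [hw]
      rw [MulChar.map_nonunit, zero_mul]
      intro h4
      apply htU
      rw [hU, mem_filter]
      exact ⟨ht, (ZMod.isUnit_iff_coprime _ _).1 h4⟩)
    (by
      rw [hU, mem_filter, mem_range]
      refine ⟨by omega, ?_⟩
      rw [mul_zero, add_zero]
      have h4 : IsUnit ((b : ℕ) : ZMod N₁) := by rw [hbN]; exact isUnit_one
      exact (ZMod.isUnit_iff_coprime _ _).1 h4)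
    (by
      simp only [hw]
      rw [mul_zero, add_zero, hbN, map_one, pow_zero, mul_one]
      exact one_ne_zero)
    (pow_ne_zero _ hξ0)
    (by
      rw [hxk, mul_zero, add_zero]
      intro h4
      have h5 : ((b : ℕ) : k) = 0 := by
        rcases div_eq_zero_iff.1 h4 with h | h
        · exact h
        · exact absurd h hNkk
      exact hbad 0 (Or.inl (by omega)) (by rw [h5]; simp))
    (by
      rw [hxk, mul_zero, add_zero, hHk]
      intro h4
      have h5 := hdiv h4
      refine hbad (2 * N₁) (Or.inl le_rfl) ?_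
      rw [h5]
      push_cast
      ring)
    (by
      rw [hxk, mul_zero, add_zero, hHk, ← mul_div_assoc]
      intro h4
      have h5 := hdiv h4
      refine hbad (4 * N₁) (Or.inr rfl) ?_
      rw [h5]
      push_cast
      ring)
    (by
      intro t ht ht0
      rw [hU, mem_filter, mem_range] at ht
      rw [hxk, hxk]
      intro h4
      have h5 := hdiv h4
      push_cast at h5
      have h6 : (D : k) * (t : k) = 0 := by linear_combination h5
      rcases mul_eq_zero.1 h6 with h | h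
      · exact hDk h
      · exact hsmall t (by omega) (by omega) h)
    (by
      intro t ht
      rw [hU, mem_filter, mem_range] at ht
      rw [hxk, hxk, hHk, ← add_div]
      intro h4
      have h5 := hdiv h4
      push_cast at h5
      have h6 : (D : k) * ((t + N₁ : ℕ) : k) = 0 := by push_cast; linear_combination h5
      rcases mul_eq_zero.1 h6 with h | h
      · exact hDk h
      · exact hsmall _ (by omega) (by omega) h)
    (by
      intro t ht
      rw [hU, mem_filter, mem_range] at ht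
      rw [hxk, hxk, hHk, ← sub_div]
      intro h4
      have h5 := hdiv h4
      push_cast at h5
      refine hbad (N₁ - t) (Or.inl (by omega)) ?_
      rw [Nat.cast_sub ht.1.le]
      linear_combination -h5)
    (by
      intro t ht
      rw [hU, mem_filter, mem_range] at ht
      rw [hxk, hxk, hHk, ← mul_div_assoc, ← sub_div]
      intro h4
      have h5 := hdiv h4
      push_cast at h5
      refine hbad (2 * N₁ - t) (Or.inl (by omega)) ?_
      rw [Nat.cast_sub (by omega)]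
      push_cast
      linear_combination -h5)
    (by omega)
    (by
      intro m hm2 hmM hme
      have hm1 : 1 ≤ m := by omega
      have key := class_zero (p := p) χ₁ χ₂ hp2 hA hn1 hn h3 hq hu hχ₁ hprim hN₁ hN0 hNk hℓk (FF m) _
        (fun x => FF_aeval_refl m x) (m := m)
        (by
          rw [hpar]
          have h4 : ((-1 : k)) ^ e * (-1) ^ e = 1 := by rw [← mul_pow]; simp
          have h5 : ((-1 : k)) ^ m * (-1) ^ e = 1 := by rw [← pow_add]; exact hme.neg_one_pow
          have h6 : ((-1 : k)) ^ e ≠ 0 := pow_ne_zero _ (by simp)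
          exact mul_right_cancel₀ h6 (h4.trans h5.symm))
        (hS m hm2 hmM hme) b hbD hb1
      have hfk : ((m.factorial : ℕ) : k) ≠ 0 := fun h => by
        have := (hpp.dvd_factorial).1 ((CharP.cast_eq_zero_iff k p m.factorial).1 h)
        omega
      have h4 : ((m.factorial : ℕ) : k) * Lam w x L (X ^ m : k[X]) = 0 := by
        rw [← key]
        unfold Lam
        rw [Finset.mul_sum]
        refine Finset.sum_congr rfl fun t _ => ?_
        have h5 : (((b + D * t : ℕ)) : k) / ((N : ℕ) : k) = ((x t : ℕ) : k) := (hxk t).symm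
        rw [h5, Pool.Agent.R480.PT.FF_nat m _ hm1]
        have h6 : Sg (derivative (X ^ m : k[X])) (x t) = (m : k) * ∑ i ∈ range (x t), (i : k) ^ (m - 1) := by
          unfold Sg
          rw [derivative_X_pow, Finset.mul_sum]
          refine Finset.sum_congr rfl fun i _ => ?_
          simp
        rw [h6]
        simp only [hw]
        ring
      exact (mul_eq_zero.1 h4).resolve_left hfk)

end

end Pool.Agent.R480.GP
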