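import Mathlib
import Pool.Agent.R480.GP.Res
import Pool.Agent.R480.TC.Val
import Pool.Agent.R480.EC.Val

/-!
# The values at one place above `p`: every long interval contains a unit value
-/

set_option autoImplicit false

namespace Pool.Agent.R480.GP

open Finset Polynomial Pool.Agent.R480.TC Pool.Agent.Y18.GX

section

variable {p : ℕ} (hp : p.Prime)

open Classical in
include hp in
/-- a unit value in every long interval, for `ψ = ψ₁ ψ₂` -/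
theorem main_gap {ℓ n K N₁ g u : ℕ} (ψ₁ : MulChar (ZMod N₁) ℂ) (ψ₂ : MulChar (ZMod (ℓ ^ K)) ℂ)
    (hp2 : p ≠ 2) (hA : Adm ℓ (p ^ g)) (hn1 : 1 ≤ n) (hn : 2 * n ≤ K) (h3 : 3 ≤ ℓ ^ n)
    (hq : p ^ g - 1 = ℓ ^ n * u) (hu : u.Coprime ℓ) (hψ₁ : ∀ a, ψ₁ a ^ p ^ g = ψ₁ a)
    (hprim : ψ₂ ((1 + ℓ ^ (K - 1) : ℕ) : ZMod (ℓ ^ K)) ≠ 1)
    (hN₁ : N₁.Coprime ℓ) (hN0 : N₁ ≠ 0) (hpℓ : p ≠ ℓ)
    (h2N : 2 * N₁ + 3 ≤ p) (hK : (2 * N₁ + 3) * N₁ * ℓ ^ (2 * n) ≤ ℓ ^ K)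
    (e A M : ℕ) (hA2 : 2 ≤ A) (hM : M < p) (hAM : 3 * A + 8 * N₁.totient ≤ M + 1) (hpar : ψ₁ (-1) * ψ₂ (-1) = (-1) ^ e)
    (hsum : ∑ a ∈ range (N₁ * ℓ ^ K), ψ₁ (a : ZMod N₁) * ψ₂ (a : ZMod (ℓ ^ K)) = 0)
    (B : ValuationSubring ℂ) (hB : B.valuation (p : ℂ) < 1) (S : Set ℕ)
    (hS : ∀ m, A ≤ m → m ≤ M → B.valuation ((1 - ψ₁ (p : ZMod N₁) * ψ₂ (p : ZMod (ℓ ^ K)) * (p : ℂ) ^ (m - 1)) *
      (((N₁ * ℓ ^ K : ℕ) : ℂ) ^ (m - 1) * ∑ a ∈ range (N₁ * ℓ ^ K), ψ₁ (a : ZMod N₁) * ψ₂ (a : ZMod (ℓ ^ K)) *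
        (((Polynomial.bernoulli m).eval ((a : ℚ) / (N₁ * ℓ ^ K : ℕ)) : ℚ) : ℂ)) / m) = 1 → m ∈ S) :
    ∃ m, A ≤ m ∧ m ≤ M ∧ m ∈ S := by
  by_contra hcon
  push Not at hcon
  have hℓ := hA.prime
  have : Fact p.Prime := ⟨hp⟩
  have hch := charP_res B hp hB
  have hm1' : ∀ a, ψ₁ a ∈ B := char_mem B hN0 ψ₁
  have hm2' : ∀ a, ψ₂ a ∈ B := char_mem B (pow_ne_zero _ hℓ.ne_zero) ψ₂
  have hpℓd : ¬ p ∣ ℓ := fun h => hpℓ ((Nat.prime_dvd_prime_iff_eq hp hℓ).1 h)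
  have hpN1 : ¬ p ∣ N₁ := fun h => by
    have := Nat.le_of_dvd (Nat.pos_of_ne_zero hN0) h
    omega
  have hpN' : ¬ p ∣ N₁ * ℓ ^ K := by
    intro h
    rcases (hp.dvd_mul).1 h with h | h
    · exact hpN1 h
    · exact hpℓd (hp.dvd_of_dvd_pow h)
  have hnk : ∀ n : ℕ, ¬ p ∣ n → ((n : ℕ) : IsLocalRing.ResidueField B) ≠ 0 := fun n hn h =>
    hn ((CharP.cast_eq_zero_iff (IsLocalRing.ResidueField B) p n).1 h)
  have hc1 : ∀ a, ((liftChar B ψ₁ hm1' a : B) : ℂ) = ψ₁ a := fun a => rfl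
  have hc2 : ∀ a, ((liftChar B ψ₂ hm2' a : B) : ℂ) = ψ₂ a := fun a => rfl
  refine res_gap (k := IsLocalRing.ResidueField B) (p := p)
    ((liftChar B ψ₁ hm1').ringHomComp (IsLocalRing.residue B))
    ((liftChar B ψ₂ hm2').ringHomComp (IsLocalRing.residue B))
    hp2 hA hn1 hn h3 hq hu ?_ (red_prim hp B hB hℓ (by omega) hpℓ ψ₂ hm2' hprim) hN₁ hN0
    (hnk _ hpN1) (hnk _ hpℓd) h2N hK e A M (by omega) hM ?_ hAM ?_
  · intro a
    have h1 : ((liftChar B ψ₁ hm1').ringHomComp (IsLocalRing.residue B)) a =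
      IsLocalRing.residue B (liftChar B ψ₁ hm1' a) := rfl
    rw [h1, ← map_pow]
    congr 1
    apply Subtype.ext
    exact hψ₁ a
  · have h1 : liftChar B ψ₁ hm1' (-1) * liftChar B ψ₂ hm2' (-1) = (-1) ^ e := by
      apply Subtype.ext
      push_cast
      rw [hc1, hc2]
      exact hpar
    have h2 : ((liftChar B ψ₁ hm1').ringHomComp (IsLocalRing.residue B)) (-1) *
        ((liftChar B ψ₂ hm2').ringHomComp (IsLocalRing.residue B)) (-1) =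
        IsLocalRing.residue B (liftChar B ψ₁ hm1' (-1)) * IsLocalRing.residue B (liftChar B ψ₂ hm2' (-1)) := rfl
    rw [h2, ← map_mul, h1, map_pow, map_neg, map_one]
  · intro m hmA hmM _
    have hm2 : 2 ≤ m := by omega
    by_contra hne
    apply hcon m hmA hmM
    apply hS m hmA hmM
    have hT1 := val_T hp B hB hpN' ψ₁ ψ₂ hm1' hm2' hne
    have hpm : ¬ p ∣ m := fun h => by
      have := Nat.le_of_dvd (by omega) h
      omega
    have hpf : ¬ p ∣ m.factorial := fun h => by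
      have := (hp.dvd_factorial).1 h
      omega
    set N := N₁ * ℓ ^ K with hN
    have hT : ((m.factorial : ℕ) : ℂ) * ∑ a ∈ range N, ψ₁ (a : ZMod N₁) * ψ₂ (a : ZMod (ℓ ^ K)) *
        (((Polynomial.bernoulli m).eval ((a : ℚ) / (N : ℕ)) : ℚ) : ℂ) =
        ∑ a ∈ range N, ψ₁ (a : ZMod N₁) * ψ₂ (a : ZMod (ℓ ^ K)) * aeval ((a : ℂ) / (N : ℕ)) (FF m) := by
      have h1 : ∀ a : ℕ, aeval ((a : ℂ) / (N : ℕ)) (FF m) = ((m.factorial : ℕ) : ℂ) *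
          ((((Polynomial.bernoulli m).eval ((a : ℚ) / (N : ℕ)) : ℚ) : ℂ) - ((_root_.bernoulli m : ℚ) : ℂ)) := by
        intro a
        rw [← FF_eval]
        push_cast
        rfl
      simp only [h1]
      have h2 : ∑ a ∈ range N, ψ₁ (a : ZMod N₁) * ψ₂ (a : ZMod (ℓ ^ K)) * (((m.factorial : ℕ) : ℂ) *
          ((((Polynomial.bernoulli m).eval ((a : ℚ) / (N : ℕ)) : ℚ) : ℂ) - ((_root_.bernoulli m : ℚ) : ℂ))) =
          ((m.factorial : ℕ) : ℂ) * ∑ a ∈ range N, ψ₁ (a : ZMod N₁) * ψ₂ (a : ZMod (ℓ ^ K)) *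
        (((Polynomial.bernoulli m).eval ((a : ℚ) / (N : ℕ)) : ℚ) : ℂ) -
        ((m.factorial : ℕ) : ℂ) * ((_root_.bernoulli m : ℚ) : ℂ) *
          ∑ a ∈ range N, ψ₁ (a : ZMod N₁) * ψ₂ (a : ZMod (ℓ ^ K)) := by
        rw [Finset.mul_sum, Finset.mul_sum, ← Finset.sum_sub_distrib]
        refine Finset.sum_congr rfl fun a _ => ?_
        ring
      rw [h2, hsum, mul_zero, sub_zero]
    set T := ∑ a ∈ range N, ψ₁ (a : ZMod N₁) * ψ₂ (a : ZMod (ℓ ^ K)) * aeval ((a : ℂ) / (N : ℕ)) (FF m) with hTd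
    set Z := ∑ a ∈ range N, ψ₁ (a : ZMod N₁) * ψ₂ (a : ZMod (ℓ ^ K)) *
        (((Polynomial.bernoulli m).eval ((a : ℚ) / (N : ℕ)) : ℚ) : ℂ) with hZ
    set E := 1 - ψ₁ (p : ZMod N₁) * ψ₂ (p : ZMod (ℓ ^ K)) * (p : ℂ) ^ (m - 1) with hE
    have hE1 : B.valuation E = 1 := by
      have h1 : ((1 - liftChar B ψ₁ hm1' (p : ZMod N₁) * liftChar B ψ₂ hm2' (p : ZMod (ℓ ^ K)) *
          (p : B) ^ (m - 1) : B) : ℂ) = E := by
        rw [hE]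
        push_cast
        rfl
      rw [← h1]
      apply val_of_res
      have hp0 : ((p : ℕ) : IsLocalRing.ResidueField B) = 0 :=
        (CharP.cast_eq_zero_iff (IsLocalRing.ResidueField B) p p).2 dvd_rfl
      rw [map_sub, map_one, map_mul (IsLocalRing.residue B), map_mul (IsLocalRing.residue B),
          map_pow, map_natCast (IsLocalRing.residue B), hp0, zero_pow (by omega), mul_zero, sub_zero]
      exact one_ne_zero
    have hz : E * ((N : ℂ) ^ (m - 1) * Z) / m = E * (N : ℂ) ^ (m - 1) * T / (((m.factorial : ℕ) : ℂ) * m) := by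
      rw [← hT]
      have h1 : ((m.factorial : ℕ) : ℂ) ≠ 0 := by exact_mod_cast (Nat.factorial_pos m).ne'
      field_simp
    rw [hz, map_div₀, map_mul, map_mul, map_mul, map_pow, hE1, hT1, nat_val hp hB hpN', nat_val hp hB hpm,
        nat_val hp hB hpf]
    simp

end

end Pool.Agent.R480.GP
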