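import Mathlib
import Pool.Agent.R480.GP.Gap
import Pool.Agent.R480.EC.Val

/-!
# Every long interval contains a unit value: conductors less than `p`
-/

set_option autoImplicit false

namespace Pool.Agent.R480.GP

open Finset Polynomial Pool.Agent.R480.EC

section

variable (B : ValuationSubring ℂ) {p : ℕ} (hp : p.Prime) (hB : B.valuation (p : ℂ) < 1)

include hp hB

theorem one_val (N M A : ℕ) (hN : 2 ≤ N) (hNp : N < p) (hMp : M + 2 ≤ p)
    (hAM : 2 * A + 2 * N.totient ≤ M + 1) (ψ : ℕ → ℂ)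
    (h1 : ψ 1 = 1) (hψ : ∀ a, ψ a ∈ B) (hχ : ∀ a, ¬ a.Coprime N → ψ a = 0) :
    ∃ m, A ≤ m ∧ m ≤ M ∧ B.valuation (bb N ψ m) = 1 := by
  classical
  by_contra hcon
  push Not at hcon
  have : Fact p.Prime := ⟨hp⟩
  have hch := Pool.Agent.Y18.GX.charP_res B hp hB
  have hpN : ¬ p ∣ N := fun h => by
    have := Nat.le_of_dvd (by omega) h
    omega
  have hmem := bb_mem B hp hB N hpN ψ hψ
  set ρ := IsLocalRing.residue B with hρ
  let βB : ℕ → B := fun m => if h : m + 1 < p then ⟨bb N ψ m, hmem m h⟩ else 0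
  have hβB : ∀ m, m + 1 < p → ((βB m : B) : ℂ) = bb N ψ m := by
    intro m hm
    simp only [βB]
    rw [dif_pos hm]
  let χB : ℕ → B := fun a => ⟨ψ a, hψ a⟩
  refine one_gap (k := IsLocalRing.ResidueField B) p N M A hN hNp (fun a => ρ (χB a)) ?_ ?_
    (fun m => ρ (βB m)) ?_ hAM ?_
  · have : χB 1 = 1 := Subtype.ext h1
    rw [this, map_one]
    exact one_ne_zero
  · intro a ha
    have : χB a = 0 := Subtype.ext (hχ a ha)
    simp only [this, map_zero]
  · intro k hk1 hkM
    have h2 : ∑ m ∈ range k, (k.choose m : B) * (N : B) ^ (k - m) * βB m =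
        k * ∑ a ∈ Icc 1 N, χB a * (a : B) ^ (k - 1) := by
      apply Subtype.ext
      have h3 := rec_C N (by omega) ψ k hk1
      have h4 : ((∑ m ∈ range k, (k.choose m : B) * (N : B) ^ (k - m) * βB m : B) : ℂ) =
          ∑ m ∈ range k, (k.choose m : ℂ) * (N : ℂ) ^ (k - m) * bb N ψ m := by
        have h5 : ((∑ m ∈ range k, (k.choose m : B) * (N : B) ^ (k - m) * βB m : B) : ℂ) =
          B.subtype (∑ m ∈ range k, (k.choose m : B) * (N : B) ^ (k - m) * βB m) := rfl
        rw [h5, map_sum]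
        refine Finset.sum_congr rfl fun m hm => ?_
        rw [mem_range] at hm
        rw [map_mul, map_mul, map_pow, map_natCast, map_natCast]
        congr 1
        exact hβB m (by omega)
      have h6 : ((k * ∑ a ∈ Icc 1 N, χB a * (a : B) ^ (k - 1) : B) : ℂ) =
          k * ∑ a ∈ Icc 1 N, ψ a * (a : ℂ) ^ (k - 1) := by
        have h5 : ((k * ∑ a ∈ Icc 1 N, χB a * (a : B) ^ (k - 1) : B) : ℂ) =
          B.subtype (k * ∑ a ∈ Icc 1 N, χB a * (a : B) ^ (k - 1)) := rfl
        rw [h5, map_mul, map_natCast, map_sum]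
        congr 1
      rw [h4, h6, h3]
    have h7 := congrArg ρ h2
    rw [map_sum, map_mul, map_natCast, map_sum] at h7
    simp only [map_mul, map_pow, map_natCast] at h7
    exact h7
  · intro m hmA hmM
    by_contra hne
    refine hcon m hmA hmM ?_
    rw [← hβB m (by omega)]
    exact Pool.Agent.Y18.GX.val_of_res B _ hne

end

end Pool.Agent.R480.GP
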